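import Pool.Agent.helper7.UL.Spec

set_option autoImplicit false

/-! # ul:CRD (MP_62ffdf_lc): coordinates -/

namespace Pool.Agent.UL

theorem CRD : CRD_stmt := by
  intro o W ho hW hc
  have hcast : ((W - 1 : ℕ) : ℤ) = (W : ℤ) - 1 := by push_cast [hW]; ring
  have hco : IsCoprime (o : ℤ) ((W : ℤ) - 1) := by
    rw [← hcast]
    exact Nat.isCoprime_iff_coprime.2 hc
  have ho' : (0 : ℤ) < o := by exact_mod_cast ho
  refine ⟨?_, ?_⟩
  · intro m
    obtain ⟨v, u, huv⟩ := hco
    have h1 := Int.emod_nonneg (u * m) ho'.ne'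
    have h2 := Int.emod_lt_of_pos (u * m) ho'
    have h3 := Int.emod_add_mul_ediv (u * m) o
    refine ⟨((u * m) % o).toNat, by omega, v * m + ((W : ℤ) - 1) * ((u * m) / o), ?_⟩
    rw [Int.toNat_of_nonneg h1]
    have h4 : m = (v * o + u * ((W : ℤ) - 1)) * m := by rw [huv, one_mul]
    have h5 : (u * m) % o = u * m - o * ((u * m) / o) := by linarith
    rw [h5]
    linear_combination h4
  · intro j hj j' hj' i i' h
    have h1 : (o : ℤ) ∣ ((W : ℤ) - 1) * ((j : ℤ) - j') := ⟨i' - i, by linear_combination h⟩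
    have h2 : (o : ℤ) ∣ (j : ℤ) - j' := hco.dvd_of_dvd_mul_left h1
    have h3 : (j : ℤ) - j' = 0 := by
      apply Int.eq_zero_of_abs_lt_dvd h2
      rw [abs_lt]
      constructor <;> omega
    have h4 : (j : ℤ) = j' := by linarith
    refine ⟨by exact_mod_cast h4, ?_⟩
    rw [h4] at h
    have h5 : (o : ℤ) * i = o * i' := by linarith
    exact mul_left_cancel₀ ho'.ne' h5

end Pool.Agent.UL
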